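import Pool.Agent.FS.K6K3.Main

set_option autoImplicit false

namespace Pool.Agent.Results.MP_571698_co.K6K3Doubly

open Filter

/-- `K₆` with the three edges of the triangle on the vertices 3, 4, 5 deleted. -/
def k6k3 : SimpleGraph (Fin 6) where
  Adj u v := u ≠ v ∧ ¬ (3 ≤ u.val ∧ 3 ≤ v.val)
  symm := ⟨fun _ _ h => ⟨h.1.symm, fun h' => h.2 h'.symm⟩⟩
  loopless := ⟨fun _ h => h.1 rfl⟩

/-- The `n`-th Cartesian power: two tuples are adjacent when they differ in exactly one coordinate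
and the two entries there are adjacent. -/
def boxPow {V : Type} (G : SimpleGraph V) (n : ℕ) : SimpleGraph (Fin n → V) where
  Adj x y := ∃ i, G.Adj (x i) (y i) ∧ ∀ j, j ≠ i → x j = y j
  symm := ⟨fun _ _ ⟨i, h1, h2⟩ => ⟨i, h1.symm, fun j hj => (h2 j hj).symm⟩⟩
  loopless := ⟨fun _ ⟨_, h1, _⟩ => G.irrefl h1⟩

/-- `S` is doubly resolving: for distinct `x, y` the difference `d(x,s) - d(y,s)` is not constant
on `S`. -/
def DoublyResolving {W : Type} (H : SimpleGraph W) (S : Finset W) : Prop :=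
  ∀ x y : W, x ≠ y → ∃ s ∈ S, ∃ t ∈ S,
    (H.dist x s : ℤ) - H.dist y s ≠ (H.dist x t : ℤ) - H.dist y t

open Pool.Agent.FS.K6K3 Pool.Agent.Lib.MP_571698_co

theorem boxPow_rel {V : Type} (G : SimpleGraph V) (n : ℕ) :
    boxPow G n = SimpleGraph.fromRel (fun a b : Fin n → V =>
      ∃ i : Fin n, G.Adj (a i) (b i) ∧ ∀ j : Fin n, j ≠ i → a j = b j) := by
  ext x y
  rw [SimpleGraph.fromRel_adj]
  constructor
  · intro h
    exact ⟨h.ne, Or.inl h⟩
  · rintro ⟨-, h | h⟩
    · exact h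
    · exact ((boxPow G n).symm.symm y x h)

theorem dd_self : ∀ s : Fin 6, dd s s = 0 := by decide

theorem dd_pos : ∀ a s : Fin 6, a ≠ s → 0 < dd a s := by decide

theorem dd_lip : ∀ s a b : Fin 6, (a ≠ b ∧ ¬ (3 ≤ a.val ∧ 3 ≤ b.val)) → dd a s ≤ dd b s + 1 := by
  decide

theorem dd_step : ∀ s a : Fin 6, a ≠ s →
    ∃ b : Fin 6, (a ≠ b ∧ ¬ (3 ≤ a.val ∧ 3 ≤ b.val)) ∧ dd b s + 1 = dd a s := by
  decide

theorem box_dist (n : ℕ) (x y : Fin n → Fin 6) :
    (boxPow k6k3 n).dist x y = ∑ k, dd (x k) (y k) := by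
  rw [boxPow_rel]
  exact dist_power k6k3 dd dd_self dd_lip dd_step n x y

theorem box_dist_pos (n : ℕ) (x y : Fin n → Fin 6) (h : x ≠ y) :
    0 < (boxPow k6k3 n).dist x y := by
  obtain ⟨i, hi⟩ := Function.ne_iff.mp h
  rw [box_dist]
  exact lt_of_lt_of_le (dd_pos _ _ hi) (Finset.single_le_sum (f := fun k => dd (x k) (y k))
    (fun _ _ => Nat.zero_le _) (Finset.mem_univ i))

/-- Sanity check: the powers are connected and have a doubly resolving set. -/
theorem box_sane (n : ℕ) :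
    (boxPow k6k3 n).Connected ∧ DoublyResolving (boxPow k6k3 n) Finset.univ := by
  refine ⟨SimpleGraph.Connected.mk fun x y => ?_, fun x y hxy => ?_⟩
  · by_cases hxy : x = y
    · subst hxy; exact SimpleGraph.Reachable.refl _
    · exact SimpleGraph.Reachable.of_dist_ne_zero (box_dist_pos n x y hxy).ne'
  · refine ⟨x, Finset.mem_univ _, y, Finset.mem_univ _, ?_⟩
    have h1 := box_dist_pos n x y hxy
    have h2 := box_dist_pos n y x hxy.symm
    rw [SimpleGraph.dist_self, SimpleGraph.dist_self]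
    omega

/-- For all large `n` every doubly resolving set of the `n`-th Cartesian power of `K₆ ∖ K₃` has at
least `2.01 n / log₆ n` vertices. -/
theorem result :
    ∃ N : ℕ, ∀ n : ℕ, N ≤ n → ∀ S : Finset (Fin n → Fin 6),
      DoublyResolving (boxPow k6k3 n) S → (201 / 100 : ℝ) * n / Real.logb 6 n ≤ S.card := by
  obtain ⟨N, hN⟩ := eventually_atTop.mp
    (large_n (3 * Real.exp ((1 + ((4 * 10000 : ℕ) : ℝ) ^ 2) / 2)) (by positivity))
  refine ⟨max N 1, fun n hn S hS => hN n (le_trans (le_max_left _ _) hn) _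
    (query_bound n (le_trans (le_max_right _ _) hn) S fun x y hxy => ?_)⟩
  simpa only [box_dist] using hS x y hxy

end Pool.Agent.Results.MP_571698_co.K6K3Doubly
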