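import Mathlib
import Pool.Agent.Lib.MP_571698_co.Main

set_option autoImplicit false

namespace Pool.Agent.Results.MP_571698_co.PowerCounterexample

open Filter Topology

/-- The `n`-th Cartesian power of `G`: two tuples are adjacent when they differ in exactly one
coordinate and the two entries there are adjacent in `G`. -/
def cartPow {V : Type} (G : SimpleGraph V) (n : ℕ) : SimpleGraph (Fin n → V) where
  Adj x y := ∃ i, G.Adj (x i) (y i) ∧ ∀ j, j ≠ i → x j = y j
  symm := ⟨fun _ _ ⟨i, h1, h2⟩ => ⟨i, h1.symm, fun j hj => (h2 j hj).symm⟩⟩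
  loopless := ⟨fun _ ⟨_, h1, _⟩ => G.irrefl h1⟩

/-- `S` is resolving in `H`: the vector of distances to the members of `S` determines a vertex. -/
def Resolving {W : Type} (H : SimpleGraph W) (S : Finset W) : Prop :=
  Function.Injective fun (x : W) (s : S) => H.dist x s

/-- `k` is the metric dimension of `H`: the least size of a resolving set. -/
def IsMetricDim {W : Type} (H : SimpleGraph W) (k : ℕ) : Prop :=
  IsLeast {j : ℕ | ∃ S : Finset W, Resolving H S ∧ S.card = j} k

open Pool.Agent.Lib.MP_571698_co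

theorem cartPow_eq {V : Type} (G : SimpleGraph V) (n : ℕ) :
    cartPow G n = SimpleGraph.fromRel (fun a b : Fin n → V =>
      ∃ i : Fin n, G.Adj (a i) (b i) ∧ ∀ j : Fin n, j ≠ i → a j = b j) := by
  ext x y
  rw [SimpleGraph.fromRel_adj]
  constructor
  · intro h
    exact ⟨h.ne, Or.inl h⟩
  · rintro ⟨-, h | h⟩
    · exact h
    · exact ((cartPow G n).symm.symm y x h)

theorem GG_dist (a s : Fin 29) : GG.dist a s = ham a s :=
  (dist_eq_of_potential GG s (fun a => ham a s) (ham_self s s.2) (GG_lip s) (GG_step s) a).2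

theorem pow_dist (n : ℕ) (x y : Fin n → Fin 29) :
    (cartPow GG n).dist x y = ∑ k, ham (x k) (y k) := by
  rw [cartPow_eq]
  exact dist_power GG (fun a b => ham a b) (fun s => ham_self s s.2) GG_lip GG_step n x y

theorem eq_of_sum_zero (n : ℕ) (x y : Fin n → Fin 29) (h : ∑ k, ham (x k) (y k) = 0) : x = y := by
  by_contra hxy
  obtain ⟨i, hi⟩ := Function.ne_iff.mp hxy
  obtain ⟨b, -, hb⟩ := GG_step (y i) (x i) hi
  have h3 : ham (x i) (y i) ≤ ∑ k, ham (x k) (y k) :=
    Finset.single_le_sum (f := fun k => ham (x k) (y k)) (fun _ _ => Nat.zero_le _)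
      (Finset.mem_univ i)
  omega

theorem pow_connected (n : ℕ) : (cartPow GG n).Connected := by
  refine SimpleGraph.Connected.mk fun x y => ?_
  by_cases hxy : x = y
  · subst hxy; exact SimpleGraph.Reachable.refl _
  · refine SimpleGraph.Reachable.of_dist_ne_zero ?_
    rw [pow_dist]
    exact fun h => hxy (eq_of_sum_zero n x y h)

theorem univ_resolving (n : ℕ) : Resolving (cartPow GG n) Finset.univ := by
  intro x y h
  have h1 := congrFun h ⟨y, Finset.mem_univ y⟩
  simp only [SimpleGraph.dist_self] at h1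
  rw [pow_dist] at h1
  exact eq_of_sum_zero n x y h1

theorem bound_of_resolving (n : ℕ) (hn : 1 ≤ n) (S : Finset (Fin n → Fin 29))
    (hS : Resolving (cartPow GG n) S) :
    WW ^ n ≤ (3 * Real.exp ((1 + ((5 * 10000 : ℕ) : ℝ) ^ 2) / 2) * √n) ^ S.card := by
  refine resolving_bound n hn S fun x y hxy => ?_
  by_contra hcon
  push Not at hcon
  apply hxy
  apply hS
  funext s
  simp only [pow_dist]
  exact hcon s s.2

theorem log_WW : 1001 / 1000 * Real.log 29 < Real.log WW := by
  have hW : (29 : ℝ) * (10045 / 10000) ≤ WW := by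
    rw [WW, le_div_iff₀ (by positivity)]
    norm_num
  have h1 : Real.log (29 * (10045 / 10000)) ≤ Real.log WW := Real.log_le_log (by norm_num) hW
  rw [Real.log_mul (by norm_num) (by norm_num)] at h1
  have h2 : 1 - (10045 / 10000 : ℝ)⁻¹ ≤ Real.log (10045 / 10000) :=
    Real.one_sub_inv_le_log_of_pos (by norm_num)
  have h3 : Real.log 29 ≤ Real.log (2 ^ 5) := Real.log_le_log (by norm_num) (by norm_num)
  rw [Real.log_pow] at h3
  have h4 := Real.log_two_lt_d9
  push_cast at h3
  norm_num at h2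
  linarith

theorem eventually_bound (K : ℝ) (hK : 0 < K) :
    ∀ᶠ n : ℕ in atTop, ∀ k : ℕ, WW ^ n ≤ (K * √n) ^ k →
      1001 / 500 * n / Real.logb 29 n ≤ k := by
  have hl : 0 < Real.log 29 := Real.log_pos (by norm_num)
  have hlog : Tendsto (fun n : ℕ => Real.log n) atTop atTop :=
    Real.tendsto_log_atTop.comp tendsto_natCast_atTop_atTop
  have h1 : Tendsto (fun n : ℕ => Real.log K / Real.log n) atTop (𝓝 0) :=
    tendsto_const_nhds.div_atTop hlog
  have h2 : Tendsto (fun n : ℕ => 1001 / 500 * Real.log 29 * (Real.log K / Real.log n + 1 / 2))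
      atTop (𝓝 (1001 / 500 * Real.log 29 * (0 + 1 / 2))) :=
    tendsto_const_nhds.mul (h1.add tendsto_const_nhds)
  have h3 : 1001 / 500 * Real.log 29 * (0 + 1 / 2) < Real.log WW := by
    have := log_WW
    linarith
  have h4 : Tendsto (fun n : ℕ => Real.log K / Real.log n + 1 / 2) atTop (𝓝 (0 + 1 / 2)) :=
    h1.add tendsto_const_nhds
  filter_upwards [h2.eventually (gt_mem_nhds h3), eventually_ge_atTop 2,
    h4.eventually (lt_mem_nhds (show (0 : ℝ) < 0 + 1 / 2 by norm_num))] with n h5 hn h6 k hk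
  have hn' : (2 : ℝ) ≤ n := by exact_mod_cast hn
  have hln : 0 < Real.log n := Real.log_pos (by linarith)
  have hs : 0 < √(n : ℝ) := Real.sqrt_pos.mpr (by linarith)
  have hW : (0 : ℝ) < WW := lt_trans (by norm_num) WW_gt
  have h7 := Real.log_le_log (pow_pos hW n) hk
  rw [Real.log_pow, Real.log_pow, Real.log_mul hK.ne' hs.ne', Real.log_sqrt (by linarith)] at h7
  have h8 : Real.log K + Real.log n / 2 = Real.log n * (Real.log K / Real.log n + 1 / 2) := by
    field_simp
  rw [h8] at h7
  set t := Real.log K / Real.log n + 1 / 2 with ht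
  have h9 : (n : ℝ) * (1001 / 500 * Real.log 29 * t) ≤ k * (Real.log n * t) :=
    le_trans (mul_le_mul_of_nonneg_left h5.le (by linarith)) h7
  have h10 : (n : ℝ) * (1001 / 500 * Real.log 29) ≤ k * Real.log n := by
    refine le_of_mul_le_mul_right ?_ h6
    linarith
  rw [Real.logb, div_div_eq_mul_div, div_le_iff₀ hln]
  linarith

/-- There is a connected graph `G` on 29 vertices whose Cartesian powers (connected, with the
additive distance) have metric dimension at least `2.002 n / log_29 n` for all large `n`; so the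
metric dimension times `log_29 n / n` does not tend to 2. -/
theorem result :
    ∃ G : SimpleGraph (Fin 29), G.Connected ∧
      (∀ n : ℕ, (cartPow G n).Connected ∧
        ∀ x y : Fin n → Fin 29, (cartPow G n).dist x y = ∑ k, G.dist (x k) (y k)) ∧
      ∃ m : ℕ → ℕ, (∀ n : ℕ, IsMetricDim (cartPow G n) (m n)) ∧
        (∃ N : ℕ, ∀ n : ℕ, N ≤ n → (1001 / 500 : ℝ) * n / Real.logb 29 n ≤ m n) ∧
        ¬ Tendsto (fun n : ℕ => (m n : ℝ) * Real.logb 29 n / n) atTop (𝓝 2) := by
  refine ⟨GG, GG_connected, fun n => ⟨pow_connected n, fun x y => ?_⟩, ?_⟩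
  · simp only [pow_dist, GG_dist]
  have hne : ∀ n : ℕ, {j : ℕ | ∃ S : Finset (Fin n → Fin 29),
      Resolving (cartPow GG n) S ∧ S.card = j}.Nonempty :=
    fun n => ⟨_, Finset.univ, univ_resolving n, rfl⟩
  have hb : ∀ n : ℕ, 1 ≤ n → WW ^ n ≤ (3 * Real.exp ((1 + ((5 * 10000 : ℕ) : ℝ) ^ 2) / 2) * √n) ^
      sInf {j : ℕ | ∃ S : Finset (Fin n → Fin 29), Resolving (cartPow GG n) S ∧ S.card = j} := by
    intro n hn
    obtain ⟨S, hS, hc⟩ := Nat.sInf_mem (hne n)
    rw [← hc]
    exact bound_of_resolving n hn S hS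
  refine ⟨fun n => sInf {j : ℕ | ∃ S : Finset (Fin n → Fin 29),
      Resolving (cartPow GG n) S ∧ S.card = j},
    fun n => ⟨Nat.sInf_mem (hne n), fun j hj => Nat.sInf_le hj⟩, ?_, ?_⟩
  · obtain ⟨N, hN⟩ := eventually_atTop.mp
      (eventually_bound (3 * Real.exp ((1 + ((5 * 10000 : ℕ) : ℝ) ^ 2) / 2)) (by positivity))
    exact ⟨max N 1, fun n hn => hN n (le_trans (le_max_left _ _) hn) _
      (hb n (le_trans (le_max_right _ _) hn))⟩
  · exact not_tendsto 29 WW _ (by norm_num) WW_gt (by positivity) _ hb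

end Pool.Agent.Results.MP_571698_co.PowerCounterexample
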